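import Pool.Agent.R937.VS.Defs

/-!
# A Künneth formula for Tate classes over finite fields: definitions
-/

set_option autoImplicit false

namespace Pool.Agent.N522.KU

open Module Polynomial IntermediateField Pool.Agent.R937.VS

noncomputable section

/-- `α` is a Weil number of weight `b` over the field with `p ^ a` elements: it is algebraic, and all
its complex conjugates have the absolute value `p ^ (a b / 2)`. By Deligne this is true for the
eigenvalues of Frobenius on `H^b` of a smooth projective variety. -/
def IsWeilNumber {Ω : Type} [Field Ω] [CharZero Ω] (p a b : ℕ) (α : Ω) : Prop :=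
  IsIntegral ℚ α ∧ ∀ w : ℂ, aeval w (minpoly ℚ α) = 0 → ‖w‖ ^ 2 = (p : ℝ) ^ (a * b)

/-- The Weil number `α` of weight `b` is free over the field `F`: the norm of `α` over `F` (the constant
coefficient of its minimal polynomial over `F`, up to the sign) is a root of unity times a power of the
square root of `q = p ^ a`; **or** `F` is a finite Galois extension of `ℚ`, and the intersection of `F`
with the field `ℚ(α ^ N)`, for some `N > 0`, is totally real (all complex conjugates of its elements
are real). -/
def IsFree {Ω : Type} [Field Ω] [CharZero Ω] (F : IntermediateField ℚ Ω) (p a b : ℕ) (α : Ω) :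
    Prop :=
  (∃ N : ℕ, 0 < N ∧ (((minpoly F α).coeff 0 : F) : Ω) ^ (2 * N) =
      (p : Ω) ^ (a * b * N * (minpoly F α).natDegree)) ∨
    (FiniteDimensional ℚ F ∧ Normal ℚ F ∧ ∃ N : ℕ, 0 < N ∧ ∀ z : Ω, z ∈ F → z ∈ ℚ⟮α ^ N⟯ →
      ∀ w : ℂ, aeval w (minpoly ℚ z) = 0 → w.im = 0)

/-- `β` is a product of finitely many Weil numbers `α_i` of weights `b_i`, `∑ b_i = n`, which are free
over the field `F`. (The number `q` is free, of weight two.) -/
def IsFreeProduct {Ω : Type} [Field Ω] [CharZero Ω] (F : IntermediateField ℚ Ω) (p a n : ℕ)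
    (β : Ω) : Prop :=
  ∃ (m : ℕ) (b : Fin m → ℕ) (α : Fin m → Ω), (∀ i, IsWeilNumber p a (b i) (α i)) ∧
    (∀ i, IsFree F p a (b i) (α i)) ∧ ∑ i, b i = n ∧ ∏ i, α i = β

section

variable {Ω : Type} [Field Ω] [CharZero Ω] {M : Type} [AddCommGroup M] [Module Ω M]

/-- Let `φ` be the Frobenius endomorphism of a variety over the field with `q = p ^ a` elements on a
part `M` of its cohomology. The class `w` is a **generalised Tate class** of codimension `c` over a
finite extension: it belongs to the generalised eigenspace of `φ ^ t`, for some `t > 0`, for the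
eigenvalue `q ^ (t c)`. -/
def IsGenTate (p a : ℕ) (φ : M →ₗ[Ω] M) (c : ℕ) (w : M) : Prop :=
  ∃ t r : ℕ, 0 < t ∧ IsGen (pw φ t) ((p : Ω) ^ (a * t * c)) r w

/-- The class `w` is a **supersingular class** of weight `n`: it belongs to the generalised eigenspace
of `φ ^ (2 t)`, for some `t > 0`, for the eigenvalue `q ^ (t n)`. If `n = 2 c` is even this means: `w`
is a generalised Tate class of codimension `c`. -/
def IsSupersingular (p a : ℕ) (φ : M →ₗ[Ω] M) (n : ℕ) (w : M) : Prop :=
  ∃ t r : ℕ, 0 < t ∧ IsGen (pw φ (2 * t)) ((p : Ω) ^ (a * t * n)) r w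

end

end

end Pool.Agent.N522.KU
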