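import Mathlib

/-!
# Norms of Weil numbers
-/

set_option autoImplicit false

namespace Pool.Agent.N522.KU

open Polynomial IntermediateField Module

noncomputable section

section norm

variable {F K : Type} [Field F] [Field K] [Algebra F K] [FiniteDimensional F K]

/-- The norm in terms of the minimal polynomial. -/
theorem norm_eq (x : K) :
    Algebra.norm F x = ((-1) ^ (minpoly F x).natDegree * (minpoly F x).coeff 0) ^ finrank F⟮x⟯ K := by
  have hx : IsIntegral F x := Algebra.IsIntegral.isIntegral x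
  have h1 := Algebra.norm_eq_norm_adjoin (K := F) x
  have h2 := Algebra.PowerBasis.norm_gen_eq_coeff_zero_minpoly (adjoin.powerBasis hx)
  have h3 : (adjoin.powerBasis hx).gen = AdjoinSimple.gen F x := adjoin.powerBasis_gen hx
  have h4 : (adjoin.powerBasis hx).dim = (minpoly F x).natDegree := rfl
  rw [h3, h4, IntermediateField.minpoly_gen] at h2
  rw [h1, h2]

theorem finrank_adjoin (x : K) : finrank F⟮x⟯ K * (minpoly F x).natDegree = finrank F K := by
  rw [mul_comm, ← adjoin.finrank (Algebra.IsIntegral.isIntegral x)]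
  exact finrank_mul_finrank F F⟮x⟯ K

/-- Elements with the same minimal polynomial have the same norm. -/
theorem norm_eq_of_minpoly (x y : K) (h : minpoly F x = minpoly F y) :
    Algebra.norm F x = Algebra.norm F y := by
  rw [norm_eq, norm_eq, h]
  congr 1
  have h1 := finrank_adjoin (F := F) x
  have h2 := finrank_adjoin (F := F) y
  rw [h] at h1
  have h3 : 0 < (minpoly F y).natDegree := minpoly.natDegree_pos (Algebra.IsIntegral.isIntegral y)
  exact Nat.eq_of_mul_eq_mul_right h3 (h1.trans h2.symm)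

end norm

section real

variable {Ω : Type} [Field Ω] [CharZero Ω]

/-- If the intersection `R` of the field `ℚ(x)` with the finite Galois extension `F` of `ℚ` is totally
real then the Weil number `x` and its complex conjugate `P / x` have the same minimal polynomial
over `F`. -/
theorem minpoly_conj (F : IntermediateField ℚ Ω) [FiniteDimensional ℚ F] [Normal ℚ F] (x : Ω)
    (hx : IsIntegral ℚ x) (P : ℕ) (hP : 0 < P)
    (hweil : ∀ w : ℂ, aeval w (minpoly ℚ x) = 0 → ‖w‖ ^ 2 = P)
    (hreal : ∀ z : Ω, z ∈ F → z ∈ ℚ⟮x⟯ → ∀ w : ℂ, aeval w (minpoly ℚ z) = 0 → w.im = 0) :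
    minpoly F ((P : Ω) / x) = minpoly F x := by
  classical
  have hx0 : x ≠ 0 := by
    intro h
    have h1 := hweil 0 (by rw [h, minpoly.zero, aeval_X])
    rw [norm_zero] at h1
    have h2 : (P : ℝ) = 0 := by rw [← h1]; norm_num
    exact hP.ne' (by exact_mod_cast h2)
  have hfx : FiniteDimensional ℚ ℚ⟮x⟯ := adjoin.finiteDimensional hx
  -- the intersection
  let R : IntermediateField ℚ Ω := F ⊓ ℚ⟮x⟯
  have hRF : R ≤ F := inf_le_left
  have hRx : R ≤ ℚ⟮x⟯ := inf_le_right
  let A : IntermediateField R Ω := extendScalars hRF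
  let B : IntermediateField R Ω := extendScalars hRx
  -- an embedding of `ℚ(x)`
  obtain ⟨ψ⟩ : Nonempty (ℚ⟮x⟯ →+* ℂ) := by
    have : NumberField ℚ⟮x⟯ := { to_charZero := inferInstance, to_finiteDimensional := hfx }
    infer_instance
  let g : ℚ⟮x⟯ := AdjoinSimple.gen ℚ x
  have hg : (g : Ω) = x := AdjoinSimple.coe_gen ℚ x
  have hψroot : ∀ z : ℚ⟮x⟯, aeval (ψ z) (minpoly ℚ (z : Ω)) = 0 := by
    intro z
    have h1 : minpoly ℚ (z : Ω) = minpoly ℚ z := by
      rw [← minpoly.algebraMap_eq (algebraMap ℚ⟮x⟯ Ω).injective z]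
      rfl
    rw [h1]
    have h2 := congrArg ψ (minpoly.aeval ℚ z)
    rw [map_zero, aeval_def, hom_eval₂] at h2
    rw [aeval_def]
    convert h2 using 2
    exact RingHom.ext_rat _ _
  have hψreal : ∀ z : R, starRingEnd ℂ (ψ ⟨z.1, hRx z.2⟩) = ψ ⟨z.1, hRx z.2⟩ := by
    intro z
    rw [Complex.conj_eq_iff_im]
    exact hreal z.1 (hRF z.2) (hRx z.2) _ (hψroot ⟨z.1, hRx z.2⟩)
  have hψx : ψ g * starRingEnd ℂ (ψ g) = P := by
    rw [Complex.mul_conj, Complex.normSq_eq_norm_sq, hweil (ψ g) (by
      have := hψroot g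
      rwa [hg] at this)]
    norm_num
  have hψg : ψ g ≠ 0 := by
    refine (map_ne_zero ψ).2 fun h => hx0 ?_
    rw [← hg, h]
    rfl
  -- the minimal polynomial over `R`
  have hxR : IsIntegral R x := hx.tower_top
  let m := minpoly R x
  have hm1 : aeval x m = 0 := minpoly.aeval R x
  have hroot : aeval ((P : Ω) / x) m = 0 := by
    let x' : ℚ⟮x⟯ := (P : ℚ⟮x⟯) / g
    have hx' : (x' : Ω) = (P : Ω) / x := by
      have h1 : (x' : Ω) = ((P : ℚ⟮x⟯) : Ω) / (g : Ω) := rfl
      rw [h1, hg]
      congr 1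
    let i : R →+* ℚ⟮x⟯ := (inclusion hRx : R →+* ℚ⟮x⟯)
    have hi : ∀ z : R, ((i z : ℚ⟮x⟯) : Ω) = (z : Ω) := fun z => rfl
    -- the values of the polynomial `m` on `ℚ(x)`
    have hev : ∀ z : ℚ⟮x⟯, aeval (z : Ω) m = ((eval₂ i z m : ℚ⟮x⟯) : Ω) := by
      intro z
      have h1 : ((eval₂ i z m : ℚ⟮x⟯) : Ω) = algebraMap ℚ⟮x⟯ Ω (eval₂ i z m) := rfl
      rw [h1, hom_eval₂]
      rfl
    have h0 : eval₂ i g m = 0 := by
      have h1 := hev g
      rw [hg, hm1] at h1
      exact Subtype.ext h1.symm
    have h1 : eval₂ (ψ.comp i) (ψ g) m = 0 := by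
      rw [← hom_eval₂, h0, map_zero]
    have h2 : eval₂ (ψ.comp i) (ψ x') m = 0 := by
      have h3 : ψ x' = starRingEnd ℂ (ψ g) := by
        have h4 : ψ x' = (P : ℂ) / ψ g := by
          rw [map_div₀, map_natCast]
        rw [h4, ← hψx, mul_div_cancel_left₀ _ hψg]
      have h5 : (starRingEnd ℂ).comp (ψ.comp i) = ψ.comp i := by
        ext z
        exact hψreal z
      have h6 := congrArg (starRingEnd ℂ) h1
      rw [hom_eval₂, h5, map_zero] at h6
      rw [h3]
      exact h6
    have h3 : eval₂ i x' m = 0 := by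
      rw [← hom_eval₂] at h2
      exact (map_eq_zero ψ).1 h2
    rw [← hx', hev, h3]
    rfl
  -- linear disjointness
  have hgal : IsGalois ℚ F := ⟨⟩
  have hAfin : FiniteDimensional R A := by
    have : FiniteDimensional ℚ A := inferInstanceAs (FiniteDimensional ℚ F)
    exact Module.Finite.of_restrictScalars_finite ℚ R A
  have hBfin : FiniteDimensional R B := by
    have : FiniteDimensional ℚ B := inferInstanceAs (FiniteDimensional ℚ ℚ⟮x⟯)
    exact Module.Finite.of_restrictScalars_finite ℚ R B
  have hAgal : IsGalois R A := by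
    have : IsGalois ℚ A := inferInstanceAs (IsGalois ℚ F)
    exact IsGalois.tower_top_of_isGalois ℚ R A
  have hinf : A ⊓ B = ⊥ := by
    rw [eq_bot_iff]
    intro z hz
    rw [mem_bot]
    exact ⟨⟨z, hz.1, hz.2⟩, rfl⟩
  have hdisj : A.LinearDisjoint B := LinearDisjoint.of_inf_eq_bot hinf
  -- the degree
  have hxB : x ∈ B := mem_adjoin_simple_self ℚ x
  let xB : B := ⟨x, hxB⟩
  have hindB : LinearIndependent R fun k : Fin m.natDegree => xB ^ (k : ℕ) := by
    have h1 : minpoly R xB = m := by
      have := minpoly.algebraMap_eq (algebraMap B Ω).injective (A := R) xB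
      exact this.symm
    have h2 := linearIndependent_pow (K := R) xB
    rwa [h1] at h2
  have hindA : LinearIndependent A fun k : Fin m.natDegree => x ^ (k : ℕ) := by
    have h1 := hdisj.linearIndependent_right hindB
    exact h1
  -- the same over `F`
  have hindF : LinearIndependent F fun k : Fin m.natDegree => x ^ (k : ℕ) := hindA
  have hxF : IsIntegral F x := hx.tower_top
  have hdeg : m.natDegree ≤ (minpoly F x).natDegree := by
    by_contra hlt
    push Not at hlt
    have h1 := Fintype.linearIndependent_iff.1 hindF (fun k => (minpoly F x).coeff k) (by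
      have h2 := minpoly.aeval F x
      rw [aeval_eq_sum_range' hlt] at h2
      rw [← Fin.sum_univ_eq_sum_range (fun k => (minpoly F x).coeff k • x ^ k)] at h2
      exact h2)
    have h3 := h1 ⟨_, hlt⟩
    have h4 : (minpoly F x).coeff (minpoly F x).natDegree = 1 := minpoly.monic hxF
    rw [h4] at h3
    exact one_ne_zero h3
  let mF : F[X] := m.map (inclusion hRF : R →+* F)
  have hmFmonic : mF.Monic := (minpoly.monic hxR).map _
  have haev : ∀ z : Ω, aeval z mF = aeval z m := by
    intro z
    rw [aeval_def, aeval_def, eval₂_map]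
    rfl
  have hdvd : minpoly F x ∣ mF := minpoly.dvd F x (by rw [haev, hm1])
  have hmF : mF = minpoly F x := by
    refine (Polynomial.eq_of_monic_of_dvd_of_natDegree_le (minpoly.monic hxF) hmFmonic hdvd ?_)
    rw [natDegree_map]
    exact hdeg
  have hroot' : aeval ((P : Ω) / x) (minpoly F x) = 0 := by
    rw [← hmF, haev, hroot]
  exact (minpoly.eq_of_irreducible_of_monic (minpoly.irreducible hxF) hroot' (minpoly.monic hxF)).symm

end real

end

end Pool.Agent.N522.KU
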