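import Pool.Agent.N522.KU.Prod
import Pool.Agent.R937.BR.Dec

/-!
# A Künneth formula for Tate classes over finite fields: the theorem
-/

set_option autoImplicit false

namespace Pool.Agent.N522.KU

open Polynomial IntermediateField Module TensorProduct Pool.Agent.R937.VS

noncomputable section

variable {Ω : Type} [Field Ω]

section lin

variable {V W : Type} [AddCommGroup V] [Module Ω V] [AddCommGroup W] [Module Ω W]

/-- Functionals belonging to generalised eigenspaces of two endomorphisms. -/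
theorem gen_mul (A : V →ₗ[Ω] V) (B : W →ₗ[Ω] W) (x y : Ω) : ∀ (k n m : ℕ), n + m = k →
    ∀ (f : V →ₗ[Ω] Ω) (g : W →ₗ[Ω] Ω), (∀ v, f (((A - x • (1 : V →ₗ[Ω] V)) ^ n) v) = 0) →
      (∀ w, g (((B - y • (1 : W →ₗ[Ω] W)) ^ m) w) = 0) → ∀ z : V ⊗[Ω] W,
      LinearMap.mul' Ω Ω (TensorProduct.map f g (((TensorProduct.map A B -
        (x * y) • (1 : V ⊗[Ω] W →ₗ[Ω] V ⊗[Ω] W)) ^ k) z)) = 0 := by
  intro k
  induction k with
  | zero =>
    intro n m hnm f g hf hg z
    have h1 : f = 0 := by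
      ext v
      have := hf v
      rwa [show n = 0 by omega, pow_zero] at this
    rw [h1, TensorProduct.map_zero_left]
    simp
  | succ k ih =>
    intro n m hnm f g hf hg z
    rcases Nat.eq_zero_or_pos n with hn | hn
    · have h1 : f = 0 := by
        ext v
        have := hf v
        rwa [hn, pow_zero] at this
      rw [h1, TensorProduct.map_zero_left]
      simp
    rcases Nat.eq_zero_or_pos m with hm | hm
    · have h1 : g = 0 := by
        ext v
        have := hg v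
        rwa [hm, pow_zero] at this
      rw [h1, TensorProduct.map_zero_right]
      simp
    have h1 : ∀ z' : V ⊗[Ω] W, LinearMap.mul' Ω Ω (TensorProduct.map f g ((TensorProduct.map A B -
        (x * y) • (1 : V ⊗[Ω] W →ₗ[Ω] V ⊗[Ω] W)) z')) =
        LinearMap.mul' Ω Ω (TensorProduct.map (f ∘ₗ (A - x • (1 : V →ₗ[Ω] V))) (g ∘ₗ B) z') +
          x * LinearMap.mul' Ω Ω (TensorProduct.map f (g ∘ₗ (B - y • (1 : W →ₗ[Ω] W))) z') := by
      intro z'
      induction z' using TensorProduct.induction_on with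
      | zero => simp
      | tmul v w =>
        simp only [LinearMap.sub_apply, LinearMap.smul_apply, Module.End.one_apply,
          TensorProduct.map_tmul, map_sub, map_smul, LinearMap.mul'_apply, LinearMap.comp_apply,
          smul_eq_mul]
        ring
      | add a b ha hb =>
        simp only [map_add]
        rw [ha, hb]
        ring
    rw [pow_succ', Module.End.mul_apply]
    rw [h1, ih (n - 1) m (by omega) (f ∘ₗ (A - x • (1 : V →ₗ[Ω] V))) (g ∘ₗ B) ?_ ?_ z,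
      ih n (m - 1) (by omega) f (g ∘ₗ (B - y • (1 : W →ₗ[Ω] W))) hf ?_ z, mul_zero, add_zero]
    · intro w
      have h2 := hg w
      rw [show m = (m - 1) + 1 by omega, pow_succ'] at h2
      exact h2
    · intro v
      have h2 := hf v
      rw [show n = (n - 1) + 1 by omega, pow_succ'] at h2
      exact h2
    · intro w
      have h2 : Commute B ((B - y • (1 : W →ₗ[Ω] W)) ^ m) := by
        refine Commute.pow_right ?_ m
        exact (Commute.refl B).sub_right ((Commute.one_right B).smul_right y)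
      have h3 : (g ∘ₗ B) (((B - y • (1 : W →ₗ[Ω] W)) ^ m) w) =
          g (((B - y • (1 : W →ₗ[Ω] W)) ^ m) (B w)) := by
        change g ((B * (B - y • (1 : W →ₗ[Ω] W)) ^ m) w) = _
        rw [h2.eq]
        rfl
      rw [h3, hg]

/-- Different eigenvalues. -/
theorem pairing_zero (C : V →ₗ[Ω] V) (f : V →ₗ[Ω] Ω) {s s' : Ω} (hne : s ≠ s') (n m : ℕ)
    (hf : ∀ v, f (((C - s • (1 : V →ₗ[Ω] V)) ^ n) v) = 0) (x : V)
    (hx : ((C - s' • (1 : V →ₗ[Ω] V)) ^ m) x = 0) : f x = 0 := by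
  have h1 : IsCoprime ((X - Polynomial.C s : Polynomial Ω) ^ n) ((X - Polynomial.C s') ^ m) :=
    (isCoprime_X_sub_C_of_isUnit_sub (sub_ne_zero.2 hne).isUnit).pow
  obtain ⟨P, Q, hPQ⟩ := h1
  have h2 := congrArg (fun R => aeval C R x) hPQ
  have e1 : ∀ (r : Ω) (k : ℕ), aeval C ((X - Polynomial.C r : Polynomial Ω) ^ k) =
      (C - r • (1 : V →ₗ[Ω] V)) ^ k := by
    intro r k
    rw [map_pow, map_sub, aeval_X, aeval_C]
    rfl
  simp only [map_add, map_mul, map_one, e1] at h2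
  have h3 : (aeval C P * (C - s • (1 : V →ₗ[Ω] V)) ^ n) x =
      ((C - s • (1 : V →ₗ[Ω] V)) ^ n) (aeval C P x) := by
    have h4 : Commute (aeval C P) ((C - s • (1 : V →ₗ[Ω] V)) ^ n) := by
      rw [← e1]
      exact (Commute.all P ((X - Polynomial.C s : Polynomial Ω) ^ n)).map (aeval C)
    rw [h4.eq]
    rfl
  have h5 : (aeval C Q * (C - s' • (1 : V →ₗ[Ω] V)) ^ m) x = 0 := by
    rw [Module.End.mul_apply, hx, map_zero]
  have h6 : x = ((C - s • (1 : V →ₗ[Ω] V)) ^ n) (aeval C P x) := by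
    calc x = (1 : V →ₗ[Ω] V) x := rfl
      _ = _ := by
        rw [← h2, LinearMap.add_apply, h5, add_zero, h3]
  rw [h6, hf]

end lin

variable [CharZero Ω]

/-- The weights in a relation. -/
theorem weights {p a n1 n2 t c : ℕ} (hp : 1 < p) (ha : 0 < a) (ht : 0 < t) {α β : Ω}
    (hα : IsWeilNumber p a n1 α) (hβ : IsWeilNumber p a n2 β)
    (h : (α * β) ^ t = (p : Ω) ^ (a * t * c)) : n1 + n2 = 2 * c := by
  classical
  let E : IntermediateField ℚ Ω := adjoin ℚ {α, β}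
  have hfin : FiniteDimensional ℚ E := finiteDimensional_adjoin fun x hx => by
    rcases hx with rfl | hx
    · exact hα.1
    · rw [Set.mem_singleton_iff.1 hx]
      exact hβ.1
  have : NumberField E := { to_charZero := inferInstance, to_finiteDimensional := hfin }
  obtain ⟨ψ⟩ : Nonempty (E →+* ℂ) := inferInstance
  have hαE : α ∈ E := subset_adjoin ℚ _ (by simp)
  have hβE : β ∈ E := subset_adjoin ℚ _ (by simp)
  have key : ∀ (z : Ω) (hz : z ∈ E) (n : ℕ), IsWeilNumber p a n z →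
      ‖ψ ⟨z, hz⟩‖ ^ 2 = (p : ℝ) ^ (a * n) := by
    intro z hz n hw
    refine hw.2 _ ?_
    have h1 : minpoly ℚ z = minpoly ℚ (⟨z, hz⟩ : E) :=
      minpoly.algebraMap_eq (algebraMap E Ω).injective (⟨z, hz⟩ : E)
    rw [h1]
    have h2 := congrArg ψ (minpoly.aeval ℚ (⟨z, hz⟩ : E))
    rw [map_zero, aeval_def, hom_eval₂] at h2
    rw [aeval_def]
    convert h2 using 2
    exact RingHom.ext_rat _ _
  have h1 : ((⟨α, hαE⟩ : E) * ⟨β, hβE⟩) ^ t = (p : E) ^ (a * t * c) := by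
    apply (algebraMap E Ω).injective
    rw [map_pow, map_pow, map_natCast, map_mul]
    exact h
  have h2 := congrArg (fun z => ‖ψ z‖ ^ 2) h1
  simp only [map_pow, map_mul, map_natCast, norm_pow, norm_mul, Complex.norm_natCast] at h2
  rw [← pow_mul, mul_comm t 2, pow_mul, mul_pow, key α hαE n1 hα, key β hβE n2 hβ, ← pow_add,
    ← pow_mul, ← pow_mul] at h2
  have hp' : (1 : ℝ) < p := by exact_mod_cast hp
  have h3 := pow_right_injective₀ (by linarith : (0 : ℝ) < p) hp'.ne' h2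
  have h4 : a * t * (n1 + n2) = a * t * (2 * c) := by
    calc a * t * (n1 + n2) = (a * n1 + a * n2) * t := by ring
      _ = a * t * c * 2 := h3
      _ = a * t * (2 * c) := by ring
  exact Nat.eq_of_mul_eq_mul_left (Nat.mul_pos ha ht) h4

/-- The product of free numbers is a Weil number. -/
theorem IsFreeProduct.weil {F : IntermediateField ℚ Ω} {p a n : ℕ} {β : Ω}
    (h : IsFreeProduct F p a n β) : IsWeilNumber p a n β := by
  classical
  obtain ⟨m, b, α, hw, -, hn, rfl⟩ := h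
  have hint : IsIntegral ℚ (∏ i, α i) := IsIntegral.prod _ fun i _ => (hw i).1
  refine ⟨hint, fun w hroot => ?_⟩
  let E : IntermediateField ℚ Ω := adjoin ℚ (Set.range α)
  have hfin : FiniteDimensional ℚ E := finiteDimensional_adjoin fun x hx => by
    obtain ⟨i, rfl⟩ := hx
    exact (hw i).1
  have : NumberField E := { to_charZero := inferInstance, to_finiteDimensional := hfin }
  have hmem : ∀ i, α i ∈ E := fun i => subset_adjoin ℚ _ ⟨i, rfl⟩
  let y : Fin m → E := fun i => ⟨α i, hmem i⟩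
  have hy : ((∏ i, y i : E) : Ω) = ∏ i, α i := map_prod (algebraMap E Ω) _ _
  have h1 : minpoly ℚ (∏ i, α i) = minpoly ℚ (∏ i, y i) := by
    rw [← hy]
    exact minpoly.algebraMap_eq (algebraMap E Ω).injective _
  have h2 : w ∈ Set.range fun ψ : E →+* ℂ => ψ (∏ i, y i) := by
    rw [NumberField.Embeddings.range_eval_eq_rootSet_minpoly E ℂ (∏ i, y i), mem_rootSet]
    refine ⟨minpoly.ne_zero (Algebra.IsIntegral.isIntegral _), ?_⟩
    rwa [← h1]
  obtain ⟨ψ, rfl⟩ := h2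
  change ‖ψ (∏ i, y i)‖ ^ 2 = _
  have h3 : ∀ i, ‖ψ (y i)‖ ^ 2 = (p : ℝ) ^ (a * b i) := by
    intro i
    refine (hw i).2 _ ?_
    have h4 : minpoly ℚ (α i) = minpoly ℚ (y i) :=
      minpoly.algebraMap_eq (algebraMap E Ω).injective (y i)
    rw [h4]
    have h5 := congrArg ψ (minpoly.aeval ℚ (y i))
    rw [map_zero, aeval_def, hom_eval₂] at h5
    rw [aeval_def]
    convert h5 using 2
    exact RingHom.ext_rat _ _
  rw [map_prod, norm_prod, ← Finset.prod_pow, Finset.prod_congr rfl fun i _ => h3 i,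
    Finset.prod_pow_eq_pow_sum, ← Finset.mul_sum, hn]

/-- **The Künneth formula.** -/
theorem kuenneth [IsAlgClosed Ω] (F : IntermediateField ℚ Ω) {p a n1 n2 : ℕ} (hp : 1 < p)
    (ha : 0 < a) {M₁ M₂ : Type} [AddCommGroup M₁] [Module Ω M₁] [FiniteDimensional Ω M₁]
    [AddCommGroup M₂] [Module Ω M₂] [FiniteDimensional Ω M₂] (φ₁ : M₁ →ₗ[Ω] M₁)
    (φ₂ : M₂ →ₗ[Ω] M₂)
    (h1 : ∀ α, End.HasEigenvalue φ₁ α → IsWeilNumber p a n1 α ∧ ∃ N : ℕ, 0 < N ∧ α ^ N ∈ F)
    (h2 : ∀ β, End.HasEigenvalue φ₂ β → IsFreeProduct F p a n2 β) (c : ℕ) (x : M₁ ⊗[Ω] M₂)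
    (hx : IsGenTate p a (TensorProduct.map φ₁ φ₂) c x) :
    x ∈ Submodule.span Ω {z | ∃ (u : M₁) (v : M₂), IsSupersingular p a φ₁ n1 u ∧
      IsSupersingular p a φ₂ n2 v ∧ z = u ⊗ₜ[Ω] v} := by
  classical
  obtain ⟨t, r, ht, hx⟩ := hx
  obtain ⟨ι₁, _, u, α, N₁, hα, hu, hcu⟩ := R937.BR.exists_basis φ₁
  obtain ⟨ι₂, _, v, β, N₂, hβ, hv, hcv⟩ := R937.BR.exists_basis φ₂
  have hpΩ : (p : Ω) ≠ 0 := Nat.cast_ne_zero.2 (by omega)
  rw [← (u.tensorProduct v).sum_repr x]
  refine Submodule.sum_mem _ fun i _ => ?_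
  by_cases h0 : (u.tensorProduct v).repr x i = 0
  · rw [h0, zero_smul]
    exact Submodule.zero_mem _
  refine Submodule.smul_mem _ _ (Submodule.subset_span ?_)
  obtain ⟨i1, i2⟩ := i
  -- the relation
  have hrel : (α i1 * β i2) ^ t = (p : Ω) ^ (a * t * c) := by
    by_contra hne
    refine h0 ?_
    have h3 := gen_mul φ₁ φ₂ (α i1) (β i2) (N₁ + N₂) N₁ N₂ rfl (u.coord i1) (v.coord i2)
      (fun x => hcu i1 x) (fun x => hcv i2 x)
    let f : M₁ ⊗[Ω] M₂ →ₗ[Ω] Ω :=
      LinearMap.mul' Ω Ω ∘ₗ TensorProduct.map (u.coord i1) (v.coord i2)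
    have hf : ∀ z, (u.tensorProduct v).repr z (i1, i2) = f z := by
      intro z
      induction z using TensorProduct.induction_on with
      | zero => simp
      | tmul v w =>
        rw [Module.Basis.tensorProduct_repr_tmul_apply]
        simp only [f, LinearMap.comp_apply, TensorProduct.map_tmul, LinearMap.mul'_apply,
          Module.Basis.coord_apply, smul_eq_mul, mul_comm]
      | add a b ha hb =>
        rw [map_add, Finsupp.add_apply, ha, hb, map_add]
    rw [hf]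
    have h4 : ∀ z, f (((TensorProduct.map φ₁ φ₂ ^ t -
        ((α i1 * β i2) ^ t) • (1 : M₁ ⊗[Ω] M₂ →ₗ[Ω] M₁ ⊗[Ω] M₂)) ^ (N₁ + N₂)) z) = 0 := by
      intro z
      have h5 : Commute (TensorProduct.map φ₁ φ₂)
          ((α i1 * β i2) • (1 : M₁ ⊗[Ω] M₂ →ₗ[Ω] M₁ ⊗[Ω] M₂)) :=
        (Commute.one_right _).smul_right _
      have h6 : TensorProduct.map φ₁ φ₂ ^ t -
          ((α i1 * β i2) ^ t) • (1 : M₁ ⊗[Ω] M₂ →ₗ[Ω] M₁ ⊗[Ω] M₂) =
          (TensorProduct.map φ₁ φ₂ - (α i1 * β i2) • (1 : M₁ ⊗[Ω] M₂ →ₗ[Ω] M₁ ⊗[Ω] M₂)) *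
            ∑ i ∈ Finset.range t, TensorProduct.map φ₁ φ₂ ^ i *
              ((α i1 * β i2) • (1 : M₁ ⊗[Ω] M₂ →ₗ[Ω] M₁ ⊗[Ω] M₂)) ^ (t - 1 - i) := by
        rw [h5.mul_geom_sum₂, _root_.smul_pow, one_pow]
      have h7 : Commute (TensorProduct.map φ₁ φ₂ -
          (α i1 * β i2) • (1 : M₁ ⊗[Ω] M₂ →ₗ[Ω] M₁ ⊗[Ω] M₂))
          (∑ i ∈ Finset.range t, TensorProduct.map φ₁ φ₂ ^ i *
              ((α i1 * β i2) • (1 : M₁ ⊗[Ω] M₂ →ₗ[Ω] M₁ ⊗[Ω] M₂)) ^ (t - 1 - i)) := by
        refine Commute.sum_right _ _ _ fun i _ => ?_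
        refine Commute.mul_right ?_ ?_
        · refine Commute.pow_right ?_ i
          exact (Commute.refl _).sub_left h5.symm
        · refine Commute.pow_right ?_ _
          exact (Commute.one_right _).smul_right _
      rw [h6, h7.mul_pow, Module.End.mul_apply]
      exact h3 _
    exact pairing_zero _ f hne _ r h4 x hx
  obtain ⟨hW1, K1, hK1, hF1⟩ := h1 _ (hα i1)
  have hprod := h2 _ (hβ i2)
  have hW2 := hprod.weil
  have hwt := weights hp ha ht hW1 hW2 hrel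
  obtain ⟨m, b, γ, hw, hfree, hn, hγ⟩ := hprod
  have hα0 : α i1 ≠ 0 := by
    intro h
    rw [h, zero_mul, zero_pow ht.ne'] at hrel
    exact pow_ne_zero _ hpΩ hrel.symm
  have hβ0 : β i2 ≠ 0 := by
    intro h
    rw [h, mul_zero, zero_pow ht.ne'] at hrel
    exact pow_ne_zero _ hpΩ hrel.symm
  have hmem : (∏ i ∈ (Finset.univ : Finset (Fin m)), γ i) ^ (t * K1) ∈ F := by
    rw [hγ]
    have h3 : β i2 ^ (t * K1) = (p : Ω) ^ (a * t * c * K1) / (α i1 ^ K1) ^ t := by
      rw [eq_div_iff (pow_ne_zero _ (pow_ne_zero _ hα0)), ← pow_mul (α i1), mul_comm K1 t,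
        ← mul_pow, mul_comm (β i2), pow_mul, hrel, ← pow_mul]
    rw [h3]
    refine F.div_mem ?_ (pow_mem hF1 t)
    exact pow_mem (_root_.natCast_mem F p) _
  obtain ⟨N, hN, hNN⟩ := prod_free F Finset.univ (by omega) b γ (fun i _ => hw i)
    (fun i _ => hfree i) (Nat.mul_pos ht hK1) hmem
  rw [hγ, hn] at hNN
  have hαN : α i1 ^ (2 * (N * t)) = (p : Ω) ^ (a * (N * t) * n1) := by
    have h3 : α i1 ^ (2 * (N * t)) * β i2 ^ (2 * (N * t)) = (p : Ω) ^ (a * t * c * (2 * N)) := by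
      rw [← mul_pow, show 2 * (N * t) = t * (2 * N) by ring, pow_mul, hrel, ← pow_mul]
    have h4 : β i2 ^ (2 * (N * t)) = (p : Ω) ^ (a * (N * t) * n2) := by
      rw [← mul_assoc, pow_mul, hNN, ← pow_mul]
      congr 1
      ring
    have h5 : (p : Ω) ^ (a * t * c * (2 * N)) =
        (p : Ω) ^ (a * (N * t) * n1) * (p : Ω) ^ (a * (N * t) * n2) := by
      rw [← pow_add]
      congr 1
      calc a * t * c * (2 * N) = a * (N * t) * (2 * c) := by ring
        _ = a * (N * t) * (n1 + n2) := by rw [hwt]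
        _ = _ := by ring
    rw [h5, h4] at h3
    exact mul_right_cancel₀ (pow_ne_zero _ hpΩ) h3
  refine ⟨u i1, v i2, ⟨N * t, N₁, Nat.mul_pos hN ht, ?_⟩, ⟨N, N₂, hN, ?_⟩, ?_⟩
  · have h3 := gen_pow φ₁ (α i1) N₁ (2 * (N * t)) (u i1) (hu i1)
    rw [hαN] at h3
    exact h3
  · have h3 := gen_pow φ₂ (β i2) N₂ (2 * N) (v i2) (hv i2)
    rw [hNN] at h3
    exact h3
  · rw [Module.Basis.tensorProduct_apply]

end

end Pool.Agent.N522.KU
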