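import Pool.Agent.N522.KU.Key
import Pool.Agent.N522.KU.Defs

/-!
# Products of free Weil numbers
-/

set_option autoImplicit false

namespace Pool.Agent.N522.KU

open Polynomial IntermediateField Module

noncomputable section

variable {Ω : Type} [Field Ω] [CharZero Ω]

/-- The conjugates of the powers of a Weil number. -/
theorem weil_pow {p a b : ℕ} {α : Ω} (h : IsWeilNumber p a b α) (N : ℕ) (w : ℂ)
    (hw : aeval w (minpoly ℚ (α ^ N)) = 0) : ‖w‖ ^ 2 = ((p ^ (a * b * N) : ℕ) : ℝ) := by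
  have hfx : FiniteDimensional ℚ ℚ⟮α⟯ := adjoin.finiteDimensional h.1
  have : NumberField ℚ⟮α⟯ := { to_charZero := inferInstance, to_finiteDimensional := hfx }
  let g : ℚ⟮α⟯ := AdjoinSimple.gen ℚ α
  have hg : (g : Ω) = α := AdjoinSimple.coe_gen ℚ α
  have h1 : minpoly ℚ (α ^ N) = minpoly ℚ (g ^ N) := by
    rw [← minpoly.algebraMap_eq (algebraMap ℚ⟮α⟯ Ω).injective (g ^ N)]
    congr 1
  have h2 : w ∈ Set.range fun ψ : ℚ⟮α⟯ →+* ℂ => ψ (g ^ N) := by
    rw [NumberField.Embeddings.range_eval_eq_rootSet_minpoly ℚ⟮α⟯ ℂ (g ^ N), mem_rootSet]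
    refine ⟨minpoly.ne_zero (Algebra.IsIntegral.isIntegral _), ?_⟩
    rwa [← h1]
  obtain ⟨ψ, rfl⟩ := h2
  have h3 : ψ g ∈ (minpoly ℚ g).rootSet ℂ := by
    rw [← NumberField.Embeddings.range_eval_eq_rootSet_minpoly ℚ⟮α⟯ ℂ g]
    exact ⟨ψ, rfl⟩
  have h4 : minpoly ℚ α = minpoly ℚ g := by
    rw [← minpoly.algebraMap_eq (algebraMap ℚ⟮α⟯ Ω).injective g]
    exact congrArg (minpoly ℚ) hg.symm
  have h5 := h.2 (ψ g) (by rw [h4]; exact (mem_rootSet.1 h3).2)
  change ‖ψ (g ^ N)‖ ^ 2 = _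
  rw [map_pow, norm_pow, ← pow_mul, mul_comm, pow_mul, h5, ← pow_mul]
  push_cast
  rfl

/-- The norm of a free number, from a larger field. -/
theorem norm_free {F : IntermediateField ℚ Ω} {K : IntermediateField F Ω} [FiniteDimensional F K]
    {p a b : ℕ} (hp : 0 < p) (x : K) (hw : IsWeilNumber p a b (x : Ω))
    (h : IsFree F p a b (x : Ω)) : ∃ N : ℕ, 0 < N ∧
      (Algebra.norm F x) ^ (2 * N) = (p : F) ^ (a * b * N * finrank F K) := by
  have hmin : minpoly F (x : Ω) = minpoly F x := by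
    rw [← minpoly.algebraMap_eq (algebraMap K Ω).injective x]
    rfl
  rcases h with ⟨N, hN, h⟩ | ⟨h1, h2, N, hN, h⟩
  · refine ⟨N, hN, ?_⟩
    rw [hmin] at h
    have h3 : ((minpoly F x).coeff 0) ^ (2 * N) =
        (p : F) ^ (a * b * N * (minpoly F x).natDegree) := by
      apply (algebraMap F Ω).injective
      rw [map_pow, map_pow, map_natCast]
      exact h
    rw [norm_eq, ← pow_mul, mul_comm (finrank F⟮x⟯ K), pow_mul, mul_pow, h3, ← pow_mul,
      mul_comm _ (2 * N), mul_assoc 2, pow_mul (-1 : F) 2, neg_one_sq, one_pow, one_mul, ← pow_mul]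
    congr 1
    rw [← finrank_adjoin (F := F) x]
    ring
  · refine ⟨N, hN, ?_⟩
    have hP : 0 < p ^ (a * b * N) := pow_pos hp _
    have h3 := minpoly_conj F ((x : Ω) ^ N) (hw.1.pow N) (p ^ (a * b * N)) hP (weil_pow hw N) h
    have hx0 : x ^ N ≠ 0 := by
      intro h0
      have h4 : (x : Ω) ^ N = 0 := by
        have := congrArg (algebraMap K Ω) h0
        rwa [map_pow, map_zero] at this
      have h5 := weil_pow hw N 0 (by rw [h4, minpoly.zero, aeval_X])
      rw [norm_zero] at h5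
      have h6 : ((p ^ (a * b * N) : ℕ) : ℝ) = 0 := by rw [← h5]; norm_num
      exact hP.ne' (by exact_mod_cast h6)
    have h4 : minpoly F (((p ^ (a * b * N) : ℕ) : K) / x ^ N) = minpoly F (x ^ N) := by
      rw [← minpoly.algebraMap_eq (algebraMap K Ω).injective (x ^ N),
        ← minpoly.algebraMap_eq (algebraMap K Ω).injective (((p ^ (a * b * N) : ℕ) : K) / x ^ N),
        map_div₀, map_natCast, map_pow]
      exact h3
    have h5 := norm_eq_of_minpoly _ _ h4
    have h6 : Algebra.norm F (x ^ N) * Algebra.norm F (((p ^ (a * b * N) : ℕ) : K) / x ^ N) =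
        ((p ^ (a * b * N) : ℕ) : F) ^ finrank F K := by
      rw [← map_mul, mul_div_cancel₀ _ hx0]
      have h7 : ((p ^ (a * b * N) : ℕ) : K) = algebraMap F K ((p ^ (a * b * N) : ℕ) : F) := by
        rw [map_natCast]
      rw [h7, Algebra.norm_algebraMap]
    rw [h5, map_pow] at h6
    rw [two_mul, pow_add, h6]
    push_cast
    rw [← pow_mul]

/-- **A product of free numbers which is an element of `F`, up to roots of unity, is a root of unity
times a power of the square root of `q`.** -/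
theorem prod_free (F : IntermediateField ℚ Ω) {ι : Type} (T : Finset ι) {p a : ℕ} (hp : 0 < p)
    (b : ι → ℕ) (α : ι → Ω) (hw : ∀ i ∈ T, IsWeilNumber p a (b i) (α i))
    (hfree : ∀ i ∈ T, IsFree F p a (b i) (α i)) {M : ℕ} (hM : 0 < M)
    (hF : (∏ i ∈ T, α i) ^ M ∈ F) :
    ∃ N : ℕ, 0 < N ∧ (∏ i ∈ T, α i) ^ (2 * N) = (p : Ω) ^ (a * N * ∑ i ∈ T, b i) := by
  classical
  let K : IntermediateField F Ω := adjoin F ((T.image α : Finset Ω) : Set Ω)
  have hfin : FiniteDimensional F K := finiteDimensional_adjoin fun x hx => by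
    obtain ⟨i, hi, rfl⟩ := Finset.mem_image.1 (Finset.mem_coe.1 hx)
    exact (hw i hi).1.tower_top
  have hmem : ∀ i ∈ T, α i ∈ K := fun i hi =>
    subset_adjoin F _ (Finset.mem_coe.2 (Finset.mem_image_of_mem α hi))
  let y : ι → K := fun i => if h : i ∈ T then ⟨α i, hmem i h⟩ else 1
  have hy : ∀ i ∈ T, (y i : Ω) = α i := fun i hi => by
    change ((if h : i ∈ T then (⟨α i, hmem i h⟩ : K) else 1 : K) : Ω) = _
    rw [dif_pos hi]
  have h1 : ∀ i, ∃ N : ℕ, 0 < N ∧ (i ∈ T → (Algebra.norm F (y i)) ^ (2 * N) =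
      (p : F) ^ (a * b i * N * finrank F K)) := by
    intro i
    by_cases hi : i ∈ T
    · obtain ⟨N, hN, h⟩ := norm_free hp (y i) (by rw [hy i hi]; exact hw i hi)
        (by rw [hy i hi]; exact hfree i hi)
      exact ⟨N, hN, fun _ => h⟩
    · exact ⟨1, one_pos, fun h => absurd h hi⟩
  choose N hN hnorm using h1
  set N0 : ℕ := ∏ i ∈ T, N i with hN0
  have hN0pos : 0 < N0 := Finset.prod_pos fun i _ => hN i
  have h2 : ∀ i ∈ T, (Algebra.norm F (y i)) ^ (2 * N0) =
      (p : F) ^ (a * b i * N0 * finrank F K) := by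
    intro i hi
    have h3 : N0 = N i * ∏ k ∈ T.erase i, N k := (Finset.mul_prod_erase T N hi).symm
    rw [h3, ← mul_assoc, pow_mul, hnorm i hi, ← pow_mul]
    congr 1
    ring
  have hprod : ((∏ i ∈ T, y i : K) : Ω) = ∏ i ∈ T, α i := by
    have h3 : ((∏ i ∈ T, y i : K) : Ω) = ∏ i ∈ T, (y i : Ω) := map_prod (algebraMap K Ω) _ _
    rw [h3]
    exact Finset.prod_congr rfl hy
  have h3 : (Algebra.norm F (∏ i ∈ T, y i)) ^ (2 * N0) =
      (p : F) ^ (a * (∑ i ∈ T, b i) * N0 * finrank F K) := by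
    rw [map_prod, ← Finset.prod_pow, Finset.prod_congr rfl h2, Finset.prod_pow_eq_pow_sum]
    congr 1
    rw [Finset.mul_sum, Finset.sum_mul, Finset.sum_mul]
  -- the element of `F`
  let z : F := ⟨(∏ i ∈ T, α i) ^ M, hF⟩
  have h4 : (∏ i ∈ T, y i : K) ^ M = algebraMap F K z := by
    apply (algebraMap K Ω).injective
    rw [map_pow]
    change ((∏ i ∈ T, y i : K) : Ω) ^ M = _
    rw [hprod]
    rfl
  have h5 : (Algebra.norm F (∏ i ∈ T, y i)) ^ M = z ^ finrank F K := by
    rw [← map_pow, h4, Algebra.norm_algebraMap]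
  have h6 : z ^ (finrank F K * (2 * N0)) =
      (p : F) ^ (a * (∑ i ∈ T, b i) * N0 * finrank F K * M) := by
    rw [pow_mul, ← h5, ← pow_mul, mul_comm M, pow_mul, h3, ← pow_mul]
  have h7 := congrArg (algebraMap F Ω) h6
  rw [map_pow, map_pow, map_natCast] at h7
  have h8 : algebraMap F Ω z = (∏ i ∈ T, α i) ^ M := rfl
  rw [h8, ← pow_mul] at h7
  have hD : 0 < finrank F K := finrank_pos
  refine ⟨M * finrank F K * N0, by positivity, ?_⟩
  have e1 : 2 * (M * finrank F K * N0) = M * (finrank F K * (2 * N0)) := by ring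
  rw [e1, h7]
  congr 1
  ring

end

end Pool.Agent.N522.KU
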